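import Pool.Agent.LibCW77.Z6

/-!
# MP_29b22a_nt (Beilinson's conjecture): the classes of all curves on `C ^ 3`

Let `k` be an algebraically closed field of characteristic `0`, `n ≥ 2`, `ζ` a primitive `n`-th root of unity and
`a_0, a_1, a_2, b_0, b_1, b_2` six different elements of `k`. Let `C` be the curve
`v ^ n ∏ (x - b_i) = ∏ (x - a_i)` (of genus `2 n - 2`) and `τ(x, v) = (x, ζ v)`. For a curve `P = (P_1, P_2, P_3)` on
`C ^ 3` let `mns P ∈ CH_1(C ^ 3)` be the sum over all `h = w σ`, `w ∈ μ_n ^ 3` with `∏ w_j = 1`, `σ ∈ S_3`, of the classes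
of `h P` minus the classes of `h τ_1 P`. Let `U1` be the subspace of `ℚ ⊗ CH_1(C ^ 3)` spanned by all classes `mns P` and
`U0` the subspace of `ℚ ⊗ CH_0(C)` spanned by the `Q - τ Q` (this is `ℚ ⊗ J(C)(k)`).

Put `ka_i = 1 / F'(a_i)`, `kb_i = 1 / F'(b_i)`, `F = ∏ (x - a_i) (x - b_i)`, and let `ν ^ n = ∏ (- kb_i / ka_i)`. There is a
linear map `Φ : ℚ ⊗ CH_0(C) → ℚ ⊗ CH_1(C ^ 3)` which gives the class of every curve `P`:

* `mns P = 0` if one of the `P_j` is ramified (`RamF`);
* otherwise let `p(t) = ∏ (t - x(P_j))`, `R_i = p(a_i) / p(b_i)` (`rat`), `u = v_1 v_2 v_3`. If the `2 × 3`-matrix with the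
  columns `(ka_i R_i + kb_i, ka_i a_i R_i + kb_i b_i)` has rank `2`, then `mns P = - Φ(∑ m_w (Q_w - τ Q_w))`, the sum over
  the places `w` where the `R_i` are units and the rank is `1`, `m_w` the order of the minors (`mnr`), `Q_w = (z, v)` the
  point of `C` with `R_i(w) = - kb_i (b_i - z) / (ka_i (a_i - z))`, `u(w) v = ν` (`CurveF`, `CurveData`);
* if the rank is `1`, there is a point `q = (x, y)` of `C` over the function field of `P` with
  `R_i = - kb_i (b_i - x) / (ka_i (a_i - x))`, `u y = ν`, and `mns P = Φ(∑ ord_w(f) (q(w) - τ q(w)))`, the sum over the zeros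
  `w` of `f = p(b_0) / p(b_1)` (`ConeF`, `ConeData`);
* if `q = Q` is constant, `mns P = [k(P) : k(p)] Φ(Q - τ Q)`, and there are such `P` for all `Q` which are not ramified
  (`LineF`, `Col`, `pf`);
* in each case `mns P` is torsion in `CH_1(C ^ 3)` if and only if the divisor is torsion in `CH_0(C)`;
* `Φ` commutes with the automorphisms of `k` which fix the `a_i`, the `b_i`, `ζ` and `ν` (`ActF`);
* `Φ` maps `U0` bijectively onto `U1`.

Cycles are combinations of closed subvarieties modulo divisors of functions (`Cyc`, `cyc`, `IsDiv`, `RatEq`); a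
subvariety is given by a generic point with coordinates in a function field `M` over `k`.
-/

open Polynomial

namespace Pool.Agent.Results.MP_29b22a_nt.CurveClasses

open Pool.Agent.LibCW77

theorem result (k : Type) [Field k] [IsAlgClosed k] [CharZero k] (c : Dat k) (hc : c.Good) (ζ ν : k)
    (hζ : IsPrimitiveRoot ζ c.n) (hν : ν ^ c.n = ∏ i, (-(kb c i) / ka c i)) :
    ∃ Φ : CHQ c 1 0 →ₗ[ℚ] CHQ c 3 1, RamF c ζ ∧ CurveF c ζ ν Φ ∧ ConeF c ζ ν Φ ∧ LineF c ζ ν Φ ∧ ActF c ζ ν Φ ∧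
      Set.BijOn Φ (U0 c ζ) (U1 c ζ) := by
  obtain ⟨Φ, h1, h2, h3, h4, h5, h6, -⟩ := final_all hc hζ hν
  exact ⟨Φ, h3, h4, h5, h2, h6, h1⟩

end Pool.Agent.Results.MP_29b22a_nt.CurveClasses
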