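import Pool.Agent.LibHC34.Dih
import Pool.Agent.LibHF77.Thm
import Pool.Agent.LibHE77.Thm

/-!
# MP_29b22a_nt (Beilinson's conjecture): cycles of all dimensions on products of hyperelliptic curves

Let `C_i : y ^ 2 = f_i(x)` (`i` in a set `I`) be hyperelliptic curves over `Qb`, the algebraic closure of `ℚ`
(`f_i` monic of odd degree `2 g_i + 1 ≥ 3` without multiple roots; the genera `g_i` may be different), and let
`X = C_(ι 1) × ... × C_(ι n)`, `ι` arbitrary. A diagonal of dimension `D` is the closure of the set of the points of
`X` every coordinate of which is a fixed point or, up to sign, one of `D` free points. Let `v_(j,e)` be the vector of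
signs of the `e`-th free point in the diagonal `δ_j` and let `s_(j,a)` be the fixed coordinate `a` of `δ_j` (`∞` if
the coordinate `a` is not fixed). A combination `∑ m_j δ_j` of diagonals satisfies (N*) if for all commutative
`ℚ`-algebras `R`, all quadratic maps `θ : ℤ ^ n → R` and all `d`, `y` in `R ^ n` such that `θ(v) ^ (g + 1) = 0` and
`θ(v) ^ g ∑_b v_b y_b = 0` for all vectors `v` supported on the coordinates of one curve, `g` its genus, and all
homomorphisms `lam` (one for every curve) from the Jacobians to `ℚ` the sums of the `m_j Q_j` and of the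
`m_j Q_j ∑_a lam(s_(j,a) - ∞) y_a` are zero, where `Q_j = ∏_e (θ(v_(j,e)) + ∑_a d_a v_(j,e,a) ^ 2)`.

* If a combination of diagonals, with arbitrary fixed coordinates, is torsion in the Chow group `CH_D X`, it
  satisfies (N*).
* Let `S_i` be sets of points of the curves `C_i` which are orthogonal: for `p` in `S_i`, `q` in `S_j` the zero-cycle
  `(p, q) - (p, ∞) - (∞, q) + (∞, ∞)` is torsion in `CH_0 (C_i × C_j)`. Then a combination of diagonals with fixed
  coordinates in the sets `S_i` or at infinity is torsion in `CH_D X` if (so: exactly if) it satisfies (N*). If the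
  `f_i` are different and the classes `s - ∞`, `s ∈ S_i`, generate a group of rank `r_i` then the classes of these
  diagonals of dimension `D` generate a group of rank exactly `N + ∑_a r_(ι a) N_a`, where `N` is the number of sets
  of `D` disjoint sets of coordinates with one element, or with two elements which belong to the same curve, such
  that no `g + 1` of the pairs of the same curve of genus `g` are nested, and `N_a` is the number of such sets of
  sets of coordinates different from `a` such that in addition no `g` of the pairs of the curve of genus `g` of the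
  coordinate `a` are nested and to the right of `a`.
* Let `g_{i,a}` (`i ∈ I`, `a` in `J`) be projective transformations of the line such that any two of the sets
  `g_{i,a}⁻¹ B_i`, `B_i` the set of the `2 g_i + 2` branch points of `C_i`, differ by at most two points. For a point
  `z` of `ℙ¹` choose points `P_{i,a}` of `C_i` over `g_{i,a} z` and let `M_i` be the saturation in `J(C_i)` of the
  group generated by the classes of `P_{i,a} - ∞`, `a ∈ J`. Then the sets of all points `s` of `C_i` with `s - ∞` in
  `M_i` are orthogonal.
* If `I` and `J` are finite and the sets `g_{i,a}⁻¹ B_i` (`a ∈ J`) are distinct for every `i` then there are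
  infinitely many such `z_0, z_1, ...`, all in one number field, such that for every `i` the classes of all the
  points `P_{i,a}` over `g_{i,a} z_n` (`a ∈ J`, `n ≥ 0`) are independent.
* For every odd `n ≥ 3` and all `l_i` different from `0` with `l_i ^ (2 n) ≠ 1` (any number of them, repetitions
  allowed) the curves `y ^ 2 = (x ^ n - 1) (x - l_i)` of genus `g = (n - 1) / 2` have such a system with
  `|J| = 2 n = 4 g + 2`.
-/

open Polynomial

namespace Pool.Agent.Results.MP_29b22a_nt.HyperellipticDiagonals

open Pool.Agent.LibHC34
open Pool.Agent.LibHF77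
open Pool.Agent.LibHE77 (ConverseStar ByStar RanksStar)
open Pool.Agent.LibHyp34 (Hyp Qb Pt)
open Pool.Agent.LibHD77 (Orth Close)

theorem result :
    (∀ (I : Type) (f : I → Qb[X]) (_ : ∀ i, Hyp (f i)), ConverseStar f ∧
      ∀ S : ∀ i, Set (Pt (f i)), Orth f S → ByStar f S ∧ (Function.Injective f → RanksStar f S)) ∧
    (∀ (I J : Type) (f : I → Qb[X]) (_ : ∀ i, Hyp (f i)) (g : I → J → GL (Fin 2) Qb), Close f g →
      OrthOver f g ∧ (Finite I → Finite J → DistinctSets f g →
        ∃ (K : IntermediateField ℚ Qb) (z : ℕ → Qb), FiniteDimensional ℚ K ∧ (∀ n, z n ∈ K) ∧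
          ∀ P : ℕ → ∀ i, J → Pt (f i), (∀ n, Over g (z n : OnePoint Qb) (P n)) →
            ∀ i, LinearIndependent ℤ (fun q : ℕ × J => jac (P q.1 i q.2)))) ∧
    ∀ (n : ℕ) (ζ : Qb), Odd n → 3 ≤ n → IsPrimitiveRoot ζ n → ∀ (I : Type) (l : I → Qb),
      (∀ i, l i ≠ 0 ∧ l i ^ (2 * n) ≠ 1) → (∀ i, Hyp (fD n ζ (l i))) ∧
      ∃ g : I → Fin (2 * n) → GL (Fin 2) Qb, Close (fun i => fD n ζ (l i)) g ∧
        DistinctSets (fun i => fD n ζ (l i)) g := by
  refine ⟨?_, ?_, ?_⟩
  · intro I f _
    exact ⟨LibHE77.converse_star f, fun S hS =>
      ⟨LibHE77.by_star f S hS, LibHE77.ranks_star f S hS⟩⟩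
  · intro I J f _ g hg
    exact ⟨orth_over f g hg, fun _ _ hd => indep f g hd⟩
  · intro n ζ hn hn3 hζ I l hl
    have : NeZero n := ⟨by omega⟩
    refine ⟨fun i => hyp_fD hn hn3 hζ (hl i).2,
      fun i a => gD ζ (hζ.ne_zero (NeZero.ne n)) (l i) ((finProdFinEquiv.symm.trans
      ((Equiv.prodCongrLeft fun _ => finTwoEquiv).trans (Equiv.prodComm _ _))) a), ?_, ?_⟩
    · intro i i' a a'
      exact symmDiff_gD hζ (hl i).1 (hl i).2 (hl i').1 (hl i').2 _ _
    · intro i
      exact (BrAt_gD_injective hζ (hl i).1 (hl i).2).comp (Equiv.injective _)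

end Pool.Agent.Results.MP_29b22a_nt.HyperellipticDiagonals
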