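import Pool.Agent.LibQuart.BW

/-!
Beilinson's conjecture for zero-cycles on squares of curves of genus three over the algebraic
numbers: on every smooth plane quartic `C` there are infinitely many pairs `(D n, E n)` of divisor
classes of degree zero, all together linearly independent, with `[D n × E n] + [E n × D n] = 0` in
`CH_0(C × C)`.
-/

open scoped Classical
open Pool.Agent.LibQuart

namespace Pool.Agent.Results.MP_29b22a_nt.SmoothQuartics

theorem result (F : MvPolynomial (Fin 3) (AlgebraicClosure ℚ)) (hF : Quartic F) :
    ∃ D E : ℕ → Pt F →₀ ℤ, (∀ n, deg (D n) = 0 ∧ deg (E n) = 0) ∧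
      (∀ c d : ℕ →₀ ℤ, IsDivisor F (c.sum (fun n a => a • D n) + d.sum fun n a => a • E n) →
        c = 0 ∧ d = 0) ∧
      ∀ n, RatEqZero F (prodCycle (D n) (E n) + prodCycle (E n) (D n)) :=
  recursion (step hF)

end Pool.Agent.Results.MP_29b22a_nt.SmoothQuartics
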